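import Mathlib
import Pool.Agent.H10.GWS

set_option autoImplicit false

namespace Pool.Agent.Results.MP_03af15_an.Radius

open Polynomial Complex ComplexConjugate

noncomputable def e (a z : ℂ) (k : ℕ) : ℂ := ∏ j ∈ Finset.range k, (z - j) / (a + j)

noncomputable def Φ (a z : ℂ) : ℂ[X] →ₗ[ℂ] ℂ := (basisMonomials ℂ).constr ℂ (e a z)

lemma Φ_mon (a z c : ℂ) (k : ℕ) : Φ a z (monomial k c) = c * e a z k := by
  have h : Φ a z (monomial k 1) = e a z k := (basisMonomials ℂ).constr_basis ℂ (e a z) k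
  rw [← smul_eq_mul, ← h, ← map_smul, smul_monomial, smul_eq_mul, mul_one]

lemma ne0 {a : ℝ} (ha : 0 < a) (j : ℕ) : (a : ℂ) + j ≠ 0 := by
  have : (0 : ℝ) < a + j := by positivity
  exact_mod_cast this.ne'

lemma e_succ (a z : ℂ) (k : ℕ) : e a z (k + 1) = e a z k * ((z - k) / (a + k)) :=
  Finset.prod_range_succ _ _

lemma eig {a : ℝ} (ha : 0 < a) (z : ℂ) (f : ℂ[X]) :
    Φ a z ((1 + X) * (X * derivative f) + C (a : ℂ) * X * f) = z * Φ a z f := by
  induction f using Polynomial.induction_on' with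
  | add p q hp hq =>
    rw [map_add (Φ a z) p q, mul_add z, ← hp, ← hq, ← map_add, derivative_add]
    congr 1; ring
  | monomial k c =>
    have h1 : X * derivative (monomial k c) = monomial k (c * k) := by
      cases k with
      | zero => simp
      | succ k => rw [derivative_monomial, X_mul_monomial]; simp
    rw [h1, add_mul, one_mul, X_mul_monomial, mul_assoc, X_mul_monomial, C_mul_monomial, map_add,
      map_add, Φ_mon, Φ_mon, Φ_mon, Φ_mon, e_succ]
    have := ne0 ha k
    field_simp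
    ring

lemma recur {a : ℝ} (ha : 0 < a) (z τ : ℂ) (k : ℕ) :
    (z + a / 2 - (1 - 2 * τ) * (k + a / 2)) * Φ a z ((X + C τ) ^ k) =
      (k + a) * Φ a z ((X + C τ) ^ (k + 1)) - k * (τ * (1 - τ)) * Φ a z ((X + C τ) ^ (k - 1)) := by
  have h := eig ha z ((X + C τ) ^ k)
  have e1 : (1 + X) * (X * derivative ((X + C τ) ^ k)) + C (a : ℂ) * X * (X + C τ) ^ k =
      ((k : ℂ) + a) • (X + C τ) ^ (k + 1) + (k * (1 - 2 * τ) - a * τ) • (X + C τ) ^ k -
        (k * (τ * (1 - τ))) • (X + C τ) ^ (k - 1) := by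
    rw [derivative_X_add_C_pow]
    simp only [smul_eq_C_mul, map_add, map_sub, map_mul, map_natCast, map_one, map_ofNat]
    cases k with
    | zero => simp; ring
    | succ k => simp only [Nat.add_sub_cancel]; ring
  rw [e1, map_sub, map_add, map_smul, map_smul, map_smul] at h
  simp only [smul_eq_mul] at h
  linear_combination -h

lemma energy {a : ℝ} (ha : 0 < a) (ζ c s : ℂ) (v : ℕ → ℂ) (h0 : v 0 ≠ 0)
    (h : ∀ k : ℕ, (ζ - c * (k + a / 2)) * v k = s * ((k + a) * v (k + 1) + k * v (k - 1))) (N : ℕ) :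
    ∃ π E K L : ℝ, 0 < π ∧ 0 < E ∧
      ζ * E - c * K = s * (2 * L + π * (N + a) * (v (N + 1) * conj (v N))) ∧
      |L| + π * (N + a) * normSq (v N) / 2 ≤ K ∧ K ≤ (N + a / 2) * E := by
  induction N with
  | zero =>
    refine ⟨1, normSq (v 0), a / 2 * normSq (v 0), 0, one_pos, normSq_pos.mpr h0, ?_, ?_, ?_⟩
    · have := h 0
      push_cast at this ⊢
      rw [← mul_conj]
      linear_combination conj (v 0) * this
    · simp; linarith
    · simp
  | succ N ih =>
    obtain ⟨π, E, K, L, hπ, hE, h1, h2, h3⟩ := ih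
    have hN : (0 : ℝ) < N + 1 := by positivity
    obtain ⟨ρ, hρ⟩ : ∃ ρ : ℝ, ρ * (N + 1) = π * (N + a) := ⟨π * (N + a) / (N + 1), by field_simp⟩
    have hb : 0 < π * (N + a) := by positivity
    have hρ0 : 0 < ρ := by
      by_contra hc
      nlinarith [not_lt.mp hc]
    have n1 := normSq_nonneg (v (N + 1))
    refine ⟨ρ, E + ρ * normSq (v (N + 1)), K + ρ * (N + 1 + a / 2) * normSq (v (N + 1)),
      L + π * (N + a) * (v (N + 1) * conj (v N)).re, hρ0, by positivity, ?_, ?_, ?_⟩
    · have h4 := h (N + 1)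
      have h5 : ((ρ * (N + 1) : ℝ) : ℂ) = (π * (N + a) : ℝ) := by rw [hρ]
      have h6 := add_conj (v (N + 1) * conj (v N))
      simp only [map_mul, conj_conj, Nat.add_sub_cancel] at h4 h6
      push_cast at h4 h5 h6 ⊢
      rw [← mul_conj]
      linear_combination h1 + ρ * conj (v (N + 1)) * h4 + s * (v N * conj (v (N + 1))) * h5 +
        s * (π * (N + a)) * h6
    · have h7 : |(v (N + 1) * conj (v N)).re| ≤ (normSq (v (N + 1)) + normSq (v N)) / 2 := by
        simp only [mul_re, conj_re, conj_im, normSq_apply]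
        rw [abs_le]
        constructor
        · nlinarith [sq_nonneg ((v (N + 1)).re + (v N).re), sq_nonneg ((v (N + 1)).im + (v N).im)]
        · nlinarith [sq_nonneg ((v (N + 1)).re - (v N).re), sq_nonneg ((v (N + 1)).im - (v N).im)]
      have h8 := abs_add_le L (π * (N + a) * (v (N + 1) * conj (v N)).re)
      rw [abs_mul, abs_of_pos hb] at h8
      have h9 := mul_le_mul_of_nonneg_left h7 hb.le
      push_cast
      rw [← hρ] at h2 h8 h9 ⊢
      linarith
    · push_cast
      nlinarith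

lemma geom (p q : ℂ) (α β : ℝ) (hα : 0 ≤ α) (hβ : 0 ≤ β) (hpq : p * q = 1) (h1 : (p + q).im ≤ 0)
    (h2 : 0 < (α * p + β * q).im) : ‖α * p + β * q‖ ≤ α + β := by
  have hp : p ≠ 0 := left_ne_zero_of_mul_eq_one hpq
  have hr : 0 < ‖p‖ := norm_pos_iff.mpr hp
  have hq : q = p⁻¹ := eq_inv_of_mul_eq_one_right hpq
  have hn : ‖p‖ * ‖q‖ = 1 := by rw [← norm_mul, hpq, norm_one]
  have hi : q.im = -p.im * ‖q‖ ^ 2 := by
    rw [hq, inv_im, norm_inv, normSq_eq_norm_sq]; field_simp
  have h3 : ‖α * p + β * q‖ ≤ α * ‖p‖ + β * ‖q‖ := by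
    refine (norm_add_le _ _).trans ?_
    simp [abs_of_nonneg hα, abs_of_nonneg hβ]
  simp only [add_im, mul_im, ofReal_re, ofReal_im, zero_mul, add_zero, hi] at h1 h2
  have hq0 : 0 < ‖q‖ := by
    by_contra hc
    nlinarith [not_lt.mp hc]
  generalize ‖p‖ = r at *
  generalize ‖q‖ = t at *
  generalize p.im = y at *
  have key : (t - 1) * (β * t - α) ≤ 0 := by
    rcases lt_trichotomy y 0 with hy | hy | hy
    · have a1 : t ^ 2 ≤ 1 := by nlinarith
      have a2 : α < β * t ^ 2 := by nlinarith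
      have a3 : t ≤ 1 := by nlinarith
      have a4 : α ≤ β * t := by nlinarith [mul_nonneg hβ hq0.le]
      nlinarith
    · simp [hy] at h2
    · have a1 : 1 ≤ t ^ 2 := by nlinarith
      have a2 : β * t ^ 2 < α := by nlinarith
      have a3 : 1 ≤ t := by nlinarith
      have a4 : β * t ≤ α := by nlinarith [mul_nonneg hβ hq0.le]
      nlinarith
  have : α * r + β * t - (α + β) = r * ((t - 1) * (β * t - α)) := by
    linear_combination (α - β * t + β) * hn
  nlinarith [mul_nonneg hr.le (neg_nonneg.mpr key)]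

lemma Φ_one (a z : ℂ) : Φ a z 1 = 1 := by
  have := Φ_mon a z 1 0
  simpa [e] using this

lemma univ_ne {a : ℝ} (ha : 0 < a) (z τ : ℂ) (N : ℕ) (hz : 0 < z.im) (hτ : 0 ≤ τ.im)
    (hR : N + a / 2 < ‖z + a / 2‖) : Φ a z ((X + C τ) ^ (N + 1)) ≠ 0 := by
  obtain ⟨s, hs⟩ := IsAlgClosed.exists_eq_mul_self (-(τ * (1 - τ)))
  have hζ : (z + a / 2).im = z.im := by simp
  by_cases hs0 : s = 0
  · have h0 : τ * (1 - τ) = 0 := by rw [hs0] at hs; linear_combination -hs
    have hi : τ.im = 0 := by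
      rcases mul_eq_zero.mp h0 with h | h
      · simp [h]
      · rw [← sub_eq_zero.mp h]; simp
    have : ∀ k, Φ a z ((X + C τ) ^ k) ≠ 0 := by
      intro k
      induction k with
      | zero => simp [Φ_one]
      | succ k ih =>
        intro h
        have h1 := recur ha z τ k
        rw [h, h0] at h1
        have h2 := (mul_eq_zero.mp (h1.trans (by simp))).resolve_right ih
        have h3 := congrArg im h2
        simp [hi] at h3
        exact hz.ne' h3
    exact this _
  intro h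
  obtain ⟨π, E, K, L, hπ, hE, h1, h2, h3⟩ := energy ha (z + a / 2) (1 - 2 * τ) s
    (fun k => Φ a z ((X + C τ) ^ k) / s ^ k) (by simp [Φ_one]) (fun k => by
      have h1 := recur ha z τ k
      cases k with
      | zero => simp only [pow_zero, div_one] at h1 ⊢; field_simp; linear_combination 2 * s * h1
      | succ k =>
        simp only [Nat.add_sub_cancel] at h1 ⊢
        field_simp
        linear_combination 2 * (s ^ 2 * s ^ (k * 2)) * h1 +
          2 * (s ^ 2 * s ^ (k * 2)) * ((k + 1 : ℕ) : ℂ) * Φ a z ((X + C τ) ^ k) * hs) N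
  simp only [h, zero_div, zero_mul, mul_zero, add_zero] at h1
  have hL : |L| ≤ K := le_trans (le_add_of_nonneg_right (by
    have := normSq_nonneg (Φ a z ((X + C τ) ^ N) / s ^ N)
    positivity)) h2
  have hL' := abs_le.mp hL
  have hE' : (E : ℂ) ≠ 0 := by exact_mod_cast hE.ne'
  have e1 : (E : ℂ) * (z + a / 2) = ((K + L) / 2 : ℝ) * (1 - 2 * τ + 2 * s) +
      ((K - L) / 2 : ℝ) * (1 - 2 * τ - 2 * s) := by
    push_cast; linear_combination h1
  have g := geom (1 - 2 * τ + 2 * s) (1 - 2 * τ - 2 * s) ((K + L) / 2) ((K - L) / 2)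
    (by linarith) (by linarith) (by linear_combination 4 * hs) (by simp; linarith)
    (by rw [← e1]; simp; positivity)
  rw [← e1, norm_mul, norm_real, Real.norm_of_nonneg hE.le] at g
  nlinarith

lemma shift {a : ℝ} (ha : 0 < a) (z t : ℂ) (f : ℂ[X]) :
    a * Φ a z ((X + C t) * f) =
      t * (z + a) * Φ ((a + 1 : ℝ) : ℂ) z f + (1 - t) * z * Φ ((a + 1 : ℝ) : ℂ) (z - 1) f := by
  induction f using Polynomial.induction_on' with
  | add p q hp hq => simp only [mul_add, map_add] at hp hq ⊢; linear_combination hp + hq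
  | monomial k c =>
    have h1 : a * e a z (k + 1) = z * e ((a + 1 : ℝ) : ℂ) (z - 1) k := by
      rw [e, Finset.prod_range_succ', e]
      have := ne0 ha 0
      simp only [Nat.cast_zero, add_zero, sub_zero] at this ⊢
      rw [mul_comm (∏ _ ∈ _, _), ← mul_assoc, mul_div_cancel₀ _ this]
      congr 1
      refine Finset.prod_congr rfl fun j _ => ?_
      push_cast; congr 1 <;> ring
    have h2 : ∀ k : ℕ, a * e a z k = (a + k) * e ((a + 1 : ℝ) : ℂ) z k := by
      intro k
      induction k with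
      | zero => simp [e]
      | succ k ih =>
        have n1 := ne0 ha k
        have n2 := ne0 (add_pos ha one_pos) k
        rw [e_succ, e_succ, ← mul_assoc, ih]
        push_cast at n2 ⊢
        field_simp
        ring
    have h3 : (a + k) * e a z (k + 1) = (z - k) * e a z k := by
      have := ne0 ha k
      rw [e_succ]; field_simp
    have n1 := ne0 ha k
    rw [add_mul, X_mul_monomial, C_mul_monomial, map_add, Φ_mon, Φ_mon, Φ_mon, Φ_mon]
    apply mul_left_cancel₀ n1
    linear_combination (a + k) * c * (1 - t) * h1 + a * c * t * h3 + c * t * (z + a) * h2 k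

lemma real_sign (ε : ℝ) (T : Multiset ℂ) (hT : ∀ t ∈ T, t.im = 0 ∧ 0 ≤ t.re ∧ t.re ≤ 1) (a x : ℝ)
    (ha : 0 < a) (hx : ε = 1 ∧ (T.card : ℝ) - 1 < x ∨ ε = -1 ∧ x < -(a + T.card - 1)) :
    ∃ r : ℝ, 0 < r ∧ Φ a x (T.map fun t => X + C t).prod = (ε ^ T.card * r : ℝ) := by
  induction T using Multiset.induction_on generalizing a x with
  | empty => exact ⟨1, one_pos, by simp [Φ_one]⟩
  | cons t T ih =>
    obtain ⟨t0, t1, t2⟩ := hT t (Multiset.mem_cons_self _ _)
    have ih' := ih fun u hu => hT u (Multiset.mem_cons_of_mem hu)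
    rw [Multiset.card_cons] at hx
    push_cast at hx
    have hc : (0 : ℝ) ≤ T.card := Nat.cast_nonneg _
    obtain ⟨r1, hr1, e1⟩ := ih' (a + 1) x (by linarith)
      (hx.imp (fun h => ⟨h.1, by linarith [h.2]⟩) fun h => ⟨h.1, by linarith [h.2]⟩)
    obtain ⟨r2, hr2, e2⟩ := ih' (a + 1) (x - 1) (by linarith)
      (hx.imp (fun h => ⟨h.1, by linarith [h.2]⟩) fun h => ⟨h.1, by linarith [h.2]⟩)
    have h := shift ha x t (T.map fun t => X + C t).prod
    have ht : t = (t.re : ℂ) := Complex.ext rfl (by simp [t0])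
    have hε : 0 < ε * (x + a) ∧ 0 < ε * x ∧ ε * ε = 1 := by
      rcases hx with ⟨rfl, h⟩ | ⟨rfl, h⟩ <;> refine ⟨by linarith, by linarith, by norm_num⟩
    refine ⟨(t.re * (ε * (x + a) * r1) + (1 - t.re) * (ε * x * r2)) / a, div_pos ?_ ha, ?_⟩
    · have p1 := mul_pos hε.1 hr1
      have p2 := mul_pos hε.2.1 hr2
      rcases t1.lt_or_eq with h | h
      · exact add_pos_of_pos_of_nonneg (mul_pos h p1) (mul_nonneg (by linarith) p2.le)
      · rw [← h]; simpa using p2
    · have ha' : (a : ℂ) ≠ 0 := by exact_mod_cast ha.ne'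
      have hε' : (ε : ℂ) * ε = 1 := by exact_mod_cast hε.2.2
      rw [Multiset.map_cons, Multiset.prod_cons, Multiset.card_cons]
      apply mul_left_cancel₀ ha'
      have e2' : Φ ((a + 1 : ℝ) : ℂ) ((x : ℂ) - 1) (T.map fun t => X + C t).prod =
          (ε ^ T.card * r2 : ℝ) := by rw [← e2]; push_cast; rfl
      rw [h, e1, e2']
      generalize t.re = u at ht
      subst ht
      push_cast
      field_simp
      linear_combination (-(ε : ℂ) ^ T.card * (u * (x + a) * r1 + (1 - u) * x * r2)) * hε'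

lemma disc {a : ℝ} (ha : 0 < a) (N : ℕ) (c : ℕ → ℝ) (hc : c (N + 1) ≠ 0)
    (hr : ∀ w : ℂ, ∑ k ∈ Finset.range (N + 1 + 1), (c k : ℂ) * w ^ k = 0 →
      w.im = 0 ∧ -1 ≤ w.re ∧ w.re ≤ 0) (z : ℂ) (hz0 : 0 ≤ z.im)
    (hz : ∑ k ∈ Finset.range (N + 1 + 1), (c k : ℂ) * e a z k = 0) : ‖z + a / 2‖ ≤ N + a / 2 := by
  by_contra hR
  rw [not_le] at hR
  let Q : ℂ[X] := ∑ k ∈ Finset.range (N + 1 + 1), monomial k (c k : ℂ)
  have hco : ∀ j, Q.coeff j = if j < N + 1 + 1 then (c j : ℂ) else 0 := fun j => by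
    simp only [Q, finsetSum_coeff, coeff_monomial, Finset.sum_ite_eq', Finset.mem_range]
  have hdeg : Q.natDegree = N + 1 := natDegree_eq_of_le_of_coeff_ne_zero
    (natDegree_le_iff_coeff_eq_zero.mpr fun j hj => by rw [hco, if_neg (by omega)])
    (by rw [hco, if_pos (by omega)]; exact_mod_cast hc)
  have hQ0 : Q ≠ 0 := fun h => by rw [h] at hdeg; simp at hdeg
  let T : Multiset ℂ := Q.roots.map fun r => -r
  have hcard : T.card = N + 1 := by
    rw [Multiset.card_map, ← hdeg, (IsAlgClosed.splits Q).natDegree_eq_card_roots]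
  have hT : ∀ t ∈ T, t.im = 0 ∧ 0 ≤ t.re ∧ t.re ≤ 1 := by
    intro t ht
    obtain ⟨r, h1, rfl⟩ := Multiset.mem_map.mp ht
    have h2 : Q.eval r = 0 := isRoot_of_mem_roots h1
    simp only [Q, eval_finsetSum, eval_monomial] at h2
    obtain ⟨a1, a2, a3⟩ := hr r h2
    simp only [neg_im, neg_re]
    exact ⟨by linarith, by linarith, by linarith⟩
  have hΦ : Φ a z (T.map fun t => X + C t).prod = 0 := by
    have h1 : Φ a z Q = 0 := by simp only [Q, map_sum, Φ_mon]; exact hz
    rw [(IsAlgClosed.splits Q).eq_prod_roots, ← smul_eq_C_mul, map_smul, smul_eq_mul] at h1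
    have h2 := (mul_eq_zero.mp h1).resolve_left (leadingCoeff_ne_zero.mpr hQ0)
    rw [← h2, Multiset.map_map]
    simp [sub_eq_add_neg]
  rcases hz0.lt_or_eq with h | h
  · exact Pool.Agent.H10.GWS.gws T (Φ a z) (fun τ hτ => hcard ▸ univ_ne ha z τ N h hτ hR)
      (fun t ht => (hT t ht).1.ge) hΦ
  · have hzr : z = (z.re : ℂ) := Complex.ext rfl (by simp [← h])
    generalize z.re = x at hzr
    subst hzr
    have : (x : ℂ) + a / 2 = ((x + a / 2 : ℝ) : ℂ) := by push_cast; rfl
    rw [this, norm_real, Real.norm_eq_abs, lt_abs] at hR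
    obtain ⟨ε, h1, h2⟩ : ∃ ε : ℝ, ε ≠ 0 ∧
        (ε = 1 ∧ (T.card : ℝ) - 1 < x ∨ ε = -1 ∧ x < -(a + T.card - 1)) := by
      rw [hcard]; push_cast
      rcases hR with h | h
      · exact ⟨1, one_ne_zero, Or.inl ⟨rfl, by linarith⟩⟩
      · exact ⟨-1, by norm_num, Or.inr ⟨rfl, by linarith⟩⟩
    obtain ⟨r, hr0, e1⟩ := real_sign ε T hT a x ha h2
    rw [hΦ] at e1
    exact mul_ne_zero (pow_ne_zero _ h1) hr0.ne' (by exact_mod_cast e1.symm)

theorem result (a : ℝ) (ha : 0 < a) (n : ℕ) (hn : 1 ≤ n) :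
    IsGreatest {r : ℝ | ∃ c : ℕ → ℝ, c n ≠ 0 ∧
      (∀ w : ℂ, ∑ k ∈ Finset.range (n + 1), (c k : ℂ) * w ^ k = 0 →
        w.im = 0 ∧ -1 ≤ w.re ∧ w.re ≤ 0) ∧
      ∃ z : ℂ, ∑ k ∈ Finset.range (n + 1),
        (c k : ℂ) * ∏ j ∈ Finset.range k, (z - j) / (a + j) = 0 ∧ r = ‖z‖} (a + n - 1) := by
  obtain ⟨N, rfl⟩ : ∃ N, n = N + 1 := ⟨n - 1, by omega⟩
  constructor
  · refine ⟨fun k => (N + 1).choose k, by simp, fun w hw => ?_, ((-(a + N) : ℝ) : ℂ), ?_, ?_⟩
    · have : (w + 1) ^ (N + 1) = 0 := by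
        rw [add_pow, ← hw]
        refine Finset.sum_congr rfl fun k _ => ?_
        simp [mul_comm]
      have hw1 : w = -1 := eq_neg_of_add_eq_zero_left (pow_eq_zero_iff (by omega) |>.mp this)
      simp [hw1]
    · have key : ∀ (M : ℕ) (b : ℝ), 0 < b → ∀ z : ℂ, z + b + M = 0 →
          Φ b z ((X + C 1) ^ (M + 1)) = 0 := by
        intro M
        induction M with
        | zero =>
          intro b hb z hz
          have h := shift hb z 1 1
          have hb' : (b : ℂ) ≠ 0 := by exact_mod_cast hb.ne'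
          rw [Nat.cast_zero, add_zero] at hz
          rw [hz] at h
          simpa [hb'] using h
        | succ M ih =>
          intro b hb z hz
          have h := shift hb z 1 ((X + C 1) ^ (M + 1))
          have hb' : (b : ℂ) ≠ 0 := by exact_mod_cast hb.ne'
          rw [ih (b + 1) (by linarith) z (by push_cast at hz ⊢; linear_combination hz),
            ← pow_succ'] at h
          simpa [hb'] using h
      have h := key N a ha ((-(a + N) : ℝ) : ℂ) (by push_cast; ring)
      rw [add_pow, map_sum] at h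
      rw [← h]
      refine Finset.sum_congr rfl fun k _ => ?_
      rw [C_1, one_pow, mul_one, mul_comm (X ^ k), ← C_eq_natCast, C_mul_X_pow_eq_monomial, Φ_mon]
      simp [e]
    · rw [norm_real, Real.norm_eq_abs, abs_neg, abs_of_pos (by positivity)]
      push_cast; ring
  · rintro r ⟨c, hc, hr, z, hz, rfl⟩
    have tri : ∀ y : ℂ, ‖y + a / 2‖ ≤ N + a / 2 → ‖y‖ ≤ a + ((N + 1 : ℕ) : ℝ) - 1 := by
      intro y hy
      have h1 := norm_sub_le (y + a / 2) (a / 2)
      rw [add_sub_cancel_right] at h1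
      have h2 : ‖(a : ℂ) / 2‖ = a / 2 := by simp [abs_of_pos ha]
      push_cast; linarith
    rcases le_total 0 z.im with h | h
    · exact tri z (disc ha N c hc hr z h hz)
    · rw [← norm_conj]
      refine tri _ (disc ha N c hc hr _ (by simpa using h) ?_)
      have := congrArg conj hz
      simpa [e] using this

end Pool.Agent.Results.MP_03af15_an.Radius
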